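import Mathlib

set_option autoImplicit false

/-!
# A Banach space with an extended M-basis that contains `ℓ^∞`

The space is `ℓ^∞(ℕ) × ℓ¹(Γ, ℓ¹(ℕ)) × ℓ²(Γ)` with `Γ = ℓ^∞(ℕ) × ℕ`.
-/

namespace Pool.Agent.Results.MP_810de6_an.LinftyInMBasisSpace

open Filter Topology
open scoped ENNReal

/-- `(x i, f i)` is an extended biorthogonal system in `E`: `f j (x i)` is `1` if `i = j` and `0`
otherwise. -/
def Biorthogonal (𝕜 : Type) [RCLike 𝕜] {E I : Type} [NormedAddCommGroup E] [NormedSpace 𝕜 E]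
    (x : I → E) (f : I → (E →L[𝕜] 𝕜)) : Prop :=
  (∀ i, f i (x i) = 1) ∧ ∀ i j, i ≠ j → f j (x i) = 0

/-- The family of functionals is total: only the zero vector is annihilated by all of them. -/
def Total (𝕜 : Type) [RCLike 𝕜] {E I : Type} [NormedAddCommGroup E] [NormedSpace 𝕜 E]
    (f : I → (E →L[𝕜] 𝕜)) : Prop :=
  ∀ y : E, (∀ i, f i y = 0) → y = 0

/-- The family `x` is an extended M-basis of `E`: its closed linear span is `E` and it is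
biorthogonal to some total family of functionals. -/
def IsExtendedMBasis (𝕜 : Type) [RCLike 𝕜] {E I : Type} [NormedAddCommGroup E]
    [NormedSpace 𝕜 E] (x : I → E) : Prop :=
  (Submodule.span 𝕜 (Set.range x)).topologicalClosure = ⊤ ∧
    ∃ f : I → (E →L[𝕜] 𝕜), Biorthogonal 𝕜 x f ∧ Total 𝕜 f

section construction

variable {𝕜 : Type} [RCLike 𝕜]

/-- bounded sequences -/
abbrev Linf (𝕜 : Type) [RCLike 𝕜] : Type := lp (fun _ : ℕ => 𝕜) ∞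

/-- summable sequences -/
abbrev L1 (𝕜 : Type) [RCLike 𝕜] : Type := lp (fun _ : ℕ => 𝕜) 1

/-- `ℓ¹(Γ, ℓ¹(ℕ))` -/
abbrev W (𝕜 : Type) [RCLike 𝕜] (Γ : Type) : Type := lp (fun _ : Γ => L1 𝕜) 1

/-- `ℓ²(Γ)` -/
abbrev H (𝕜 : Type) [RCLike 𝕜] (Γ : Type) : Type := lp (fun _ : Γ => 𝕜) 2

/-- the space -/
abbrev Sp (𝕜 : Type) [RCLike 𝕜] (Γ : Type) : Type := Linf 𝕜 × W 𝕜 Γ × H 𝕜 Γ

/-- A closed subspace of `ℓ^p(α, F)` (`p < ∞`) containing all vectors supported at one point is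
everything. -/
theorem lp_top {α : Type} {F : Type} [NormedAddCommGroup F] [NormedSpace 𝕜 F] [DecidableEq α]
    {p : ℝ≥0∞} [Fact (1 ≤ p)] (hp : p ≠ ∞) (K : Submodule 𝕜 (lp (fun _ : α => F) p))
    (hK : IsClosed (K : Set (lp (fun _ : α => F) p)))
    (h : ∀ i a, lp.single p i a ∈ K) (v : lp (fun _ : α => F) p) : v ∈ K := by
  have h1 := lp.hasSum_single hp v
  exact hK.mem_of_tendsto h1 (Eventually.of_forall fun s => K.sum_mem fun i _ => h i _)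

/-- multiplication by `2^{-n}` from `ℓ^∞` to `ℓ¹` -/
noncomputable def dil (ξ : Linf 𝕜) : L1 𝕜 :=
  ⟨fun n => (1 / 2 : 𝕜) ^ n * ξ n, by
    refine memℓp_gen ?_
    simp only [ENNReal.toReal_one, Real.rpow_one]
    have hs : Summable (fun n : ℕ => (1 / 2 : ℝ) ^ n * ‖ξ‖) :=
      (summable_geometric_of_lt_one (by norm_num) (by norm_num)).mul_right _
    refine Summable.of_nonneg_of_le (fun n => norm_nonneg _) (fun n => ?_) hs
    rw [norm_mul, norm_pow, norm_div, norm_one, RCLike.norm_ofNat]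
    exact mul_le_mul_of_nonneg_left (lp.norm_apply_le_norm ENNReal.top_ne_zero ξ n)
      (by positivity)⟩

theorem dil_apply (ξ : Linf 𝕜) (n : ℕ) : dil ξ n = (1 / 2 : 𝕜) ^ n * ξ n := rfl

variable {Γ : Type} [DecidableEq Γ] (ξ : Γ → Linf 𝕜)

/-- the index set of the M-basis -/
abbrev Idx (Γ : Type) : Type := ℕ ⊕ (Γ × ℕ) ⊕ Γ

/-- unit vector of `ℓ^∞` -/
noncomputable def un (𝕜 : Type) [RCLike 𝕜] (n : ℕ) : Linf 𝕜 := lp.single ∞ n (1 : 𝕜)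

/-- unit vector of `ℓ¹` -/
noncomputable def u1 (𝕜 : Type) [RCLike 𝕜] (n : ℕ) : L1 𝕜 := lp.single 1 n (1 : 𝕜)

/-- the vector of `W` supported at `γ` -/
noncomputable def sW (γ : Γ) : L1 𝕜 →L[𝕜] W 𝕜 Γ :=
  lp.singleContinuousLinearMap 𝕜 (fun _ : Γ => L1 𝕜) 1 γ

/-- unit vector of `ℓ²(Γ)` -/
noncomputable def uH (𝕜 : Type) [RCLike 𝕜] (γ : Γ) : H 𝕜 Γ := lp.single 2 γ (1 : 𝕜)

theorem un_apply (n m : ℕ) : un 𝕜 n m = if m = n then 1 else 0 := by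
  unfold un
  split_ifs with h
  · subst h
    rw [lp.single_apply_self]
  · rw [lp.single_apply_ne _ _ _ h]

theorem u1_apply (n m : ℕ) : u1 𝕜 n m = if m = n then 1 else 0 := by
  unfold u1
  split_ifs with h
  · subst h
    rw [lp.single_apply_self]
  · rw [lp.single_apply_ne _ _ _ h]

theorem uH_apply (γ δ : Γ) : uH 𝕜 γ δ = if δ = γ then 1 else 0 := by
  unfold uH
  split_ifs with h
  · subst h
    rw [lp.single_apply_self]
  · rw [lp.single_apply_ne _ _ _ h]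

theorem sW_apply (γ δ : Γ) (u : L1 𝕜) : sW γ u δ = if δ = γ then u else 0 := by
  unfold sW
  rw [lp.singleContinuousLinearMap_apply]
  split_ifs with h
  · subst h
    exact lp.single_apply_self (E := fun _ : Γ => L1 𝕜) 1 δ u
  · exact lp.single_apply_ne (E := fun _ : Γ => L1 𝕜) 1 γ u h

/-- the vectors -/
noncomputable def vec : Idx Γ → Sp 𝕜 Γ
  | Sum.inl n => (un 𝕜 n, 0, 0)
  | Sum.inr (Sum.inl (γ, n)) => (un 𝕜 n, - sW γ ((1 / 2 : 𝕜) ^ n • u1 𝕜 n), 0)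
  | Sum.inr (Sum.inr γ) => (ξ γ, - sW γ (dil (ξ γ)), uH 𝕜 γ)

/-- evaluation of the first coordinate -/
noncomputable def ev1 (n : ℕ) : Sp 𝕜 Γ →L[𝕜] 𝕜 :=
  (lp.evalCLM 𝕜 (fun _ : ℕ => 𝕜) ∞ n).comp (ContinuousLinearMap.fst 𝕜 _ _)

/-- sum of the second coordinate -/
noncomputable def ev2s (n : ℕ) : Sp 𝕜 Γ →L[𝕜] 𝕜 :=
  (lp.evalCLM 𝕜 (fun _ : ℕ => 𝕜) 1 n).comp
    ((lp.tsumCLM 𝕜 Γ (L1 𝕜)).comp
      ((ContinuousLinearMap.fst 𝕜 _ _).comp (ContinuousLinearMap.snd 𝕜 (Linf 𝕜) (W 𝕜 Γ × H 𝕜 Γ))))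

/-- evaluation of the second coordinate -/
noncomputable def ev2 (γ : Γ) (n : ℕ) : Sp 𝕜 Γ →L[𝕜] 𝕜 :=
  (lp.evalCLM 𝕜 (fun _ : ℕ => 𝕜) 1 n).comp
    ((lp.evalCLM 𝕜 (fun _ : Γ => L1 𝕜) 1 γ).comp
      ((ContinuousLinearMap.fst 𝕜 _ _).comp (ContinuousLinearMap.snd 𝕜 (Linf 𝕜) (W 𝕜 Γ × H 𝕜 Γ))))

/-- evaluation of the third coordinate -/
noncomputable def ev3 (γ : Γ) : Sp 𝕜 Γ →L[𝕜] 𝕜 :=
  (lp.evalCLM 𝕜 (fun _ : Γ => 𝕜) 2 γ).comp
      ((ContinuousLinearMap.snd 𝕜 _ _).comp (ContinuousLinearMap.snd 𝕜 (Linf 𝕜) (W 𝕜 Γ × H 𝕜 Γ)))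

/-- the functionals -/
noncomputable def fn : Idx Γ → (Sp 𝕜 Γ →L[𝕜] 𝕜)
  | Sum.inl n => ev1 n + (2 : 𝕜) ^ n • ev2s n
  | Sum.inr (Sum.inl (γ, n)) => -((2 : 𝕜) ^ n • ev2 γ n) - ξ γ n • ev3 γ
  | Sum.inr (Sum.inr γ) => ev3 γ

theorem fn_inl (n : ℕ) (z : Linf 𝕜) (w : W 𝕜 Γ) (c : H 𝕜 Γ) :
    fn ξ (Sum.inl n) (z, w, c) = z n + (2 : 𝕜) ^ n * (lp.tsumCLM 𝕜 Γ (L1 𝕜) w) n := rfl

theorem fn_inrl (γ : Γ) (n : ℕ) (z : Linf 𝕜) (w : W 𝕜 Γ) (c : H 𝕜 Γ) :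
    fn ξ (Sum.inr (Sum.inl (γ, n))) (z, w, c) = -((2 : 𝕜) ^ n * w γ n) - ξ γ n * c γ := rfl

theorem fn_inrr (γ : Γ) (z : Linf 𝕜) (w : W 𝕜 Γ) (c : H 𝕜 Γ) :
    fn ξ (Sum.inr (Sum.inr γ)) (z, w, c) = c γ := rfl

theorem total_fn : Total 𝕜 (fn ξ) := by
  rintro ⟨z, w, c⟩ h
  have hc : c = 0 := by
    ext γ
    exact h (Sum.inr (Sum.inr γ))
  subst hc
  have hw : w = 0 := by
    ext γ n
    have h1 := h (Sum.inr (Sum.inl (γ, n)))
    have h2 : -((2 : 𝕜) ^ n * w γ n) - ξ γ n * (0 : 𝕜) = 0 := h1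
    rw [mul_zero, sub_zero, neg_eq_zero, mul_eq_zero] at h2
    rcases h2 with h2 | h2
    · exact absurd h2 (pow_ne_zero _ two_ne_zero)
    · exact h2
  subst hw
  have hz : z = 0 := by
    ext n
    have h1 := h (Sum.inl n)
    rw [fn_inl, map_zero] at h1
    have h3 : z n + (2 : 𝕜) ^ n * 0 = 0 := h1
    rw [mul_zero, add_zero] at h3
    exact h3
  subst hz
  rfl

theorem half_two (n : ℕ) : (2 : 𝕜) ^ n * (1 / 2 : 𝕜) ^ n = 1 := by
  rw [← mul_pow]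
  norm_num

theorem tsum_sW (γ : Γ) (u : L1 𝕜) : lp.tsumCLM 𝕜 Γ (L1 𝕜) (sW γ u) = u := by
  have h : lp.tsumCLM 𝕜 Γ (L1 𝕜) (sW γ u) = ∑' δ, (sW γ u) δ := rfl
  rw [h, tsum_eq_single γ]
  · rw [sW_apply, if_pos rfl]
  · intro b hb
    rw [sW_apply, if_neg hb]

theorem biorth_fn : Biorthogonal 𝕜 (vec ξ) (fn ξ) := by
  have hn : ∀ (w : L1 𝕜) (n : ℕ), (-w) n = - w n := fun _ _ => rfl
  have hnW : ∀ (w : W 𝕜 Γ) (γ : Γ) (n : ℕ), (-w) γ n = - w γ n := fun _ _ _ => rfl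
  have h0W : ∀ (γ : Γ) (n : ℕ), (0 : W 𝕜 Γ) γ n = 0 := fun _ _ => rfl
  have h0H : ∀ (γ : Γ), (0 : H 𝕜 Γ) γ = 0 := fun _ => rfl
  have h01 : ∀ (n : ℕ), (0 : L1 𝕜) n = 0 := fun _ => rfl
  have hs : ∀ (a : 𝕜) (w : L1 𝕜) (n : ℕ), (a • w) n = a * w n := fun _ _ _ => rfl
  have hif : ∀ (p : Prop) [Decidable p] (u : L1 𝕜) (n : ℕ),
      (if p then u else 0 : L1 𝕜) n = if p then u n else 0 := by
    intro p _ u n
    split_ifs <;> rfl
  constructor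
  · rintro (n | ⟨γ, n⟩ | γ)
    · show fn ξ (Sum.inl n) (un 𝕜 n, 0, 0) = 1
      rw [fn_inl, map_zero, h01, mul_zero, add_zero, un_apply, if_pos rfl]
    · show fn ξ (Sum.inr (Sum.inl (γ, n))) (un 𝕜 n, - sW γ ((1 / 2 : 𝕜) ^ n • u1 𝕜 n), 0) = 1
      rw [fn_inrl, hnW, sW_apply, if_pos rfl, hs, u1_apply, if_pos rfl, h0H, mul_zero, sub_zero,
        mul_one, mul_neg, neg_neg, half_two]
    · show fn ξ (Sum.inr (Sum.inr γ)) (ξ γ, - sW γ (dil (ξ γ)), uH 𝕜 γ) = 1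
      rw [fn_inrr, uH_apply, if_pos rfl]
  · rintro (n | ⟨γ, n⟩ | γ) (m | ⟨δ, m⟩ | δ) hne
    · have hne' : m ≠ n := fun h => hne (by rw [h])
      show fn ξ (Sum.inl m) (un 𝕜 n, 0, 0) = 0
      rw [fn_inl, map_zero, h01, mul_zero, add_zero, un_apply, if_neg hne']
    · show fn ξ (Sum.inr (Sum.inl (δ, m))) (un 𝕜 n, 0, 0) = 0
      rw [fn_inrl, h0W, h0H, mul_zero, neg_zero, mul_zero, sub_zero]
    · show fn ξ (Sum.inr (Sum.inr δ)) (un 𝕜 n, 0, 0) = 0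
      rw [fn_inrr, h0H]
    · show fn ξ (Sum.inl m) (un 𝕜 n, - sW γ ((1 / 2 : 𝕜) ^ n • u1 𝕜 n), 0) = 0
      rw [fn_inl, map_neg, tsum_sW, hn, hs, u1_apply, un_apply]
      by_cases h : m = n
      · subst h
        rw [if_pos rfl, mul_one, mul_neg, half_two]
        ring
      · rw [if_neg h]
        ring
    · show fn ξ (Sum.inr (Sum.inl (δ, m))) (un 𝕜 n, - sW γ ((1 / 2 : 𝕜) ^ n • u1 𝕜 n), 0) = 0
      rw [fn_inrl, hnW, sW_apply, hif, hs, u1_apply, h0H, mul_zero, sub_zero]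
      by_cases h : δ = γ
      · subst h
        have hne' : m ≠ n := fun h => hne (by rw [h])
        rw [if_pos rfl, if_neg hne']
        ring
      · rw [if_neg h]
        ring
    · show fn ξ (Sum.inr (Sum.inr δ)) (un 𝕜 n, - sW γ ((1 / 2 : 𝕜) ^ n • u1 𝕜 n), 0) = 0
      rw [fn_inrr, h0H]
    · show fn ξ (Sum.inl m) (ξ γ, - sW γ (dil (ξ γ)), uH 𝕜 γ) = 0
      rw [fn_inl, map_neg, tsum_sW, hn, dil_apply, mul_neg, ← mul_assoc, half_two]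
      ring
    · show fn ξ (Sum.inr (Sum.inl (δ, m))) (ξ γ, - sW γ (dil (ξ γ)), uH 𝕜 γ) = 0
      rw [fn_inrl, hnW, sW_apply, hif, dil_apply, uH_apply]
      by_cases h : δ = γ
      · subst h
        rw [if_pos rfl, if_pos rfl, mul_neg, ← mul_assoc, half_two]
        ring
      · rw [if_neg h, if_neg h]
        ring
    · have hne' : δ ≠ γ := fun h => hne (by rw [h])
      show fn ξ (Sum.inr (Sum.inr δ)) (ξ γ, - sW γ (dil (ξ γ)), uH 𝕜 γ) = 0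
      rw [fn_inrr, uH_apply, if_neg hne']

/-- The closed span of the vectors is everything as soon as every bounded sequence is listed
infinitely often. -/
theorem span_vec (hξ : ∀ z : Linf 𝕜, ∃ k : ℕ → Γ, Function.Injective k ∧ ∀ n, ξ (k n) = z) :
    (Submodule.span 𝕜 (Set.range (vec ξ))).topologicalClosure = ⊤ := by
  set S := (Submodule.span 𝕜 (Set.range (vec ξ))).topologicalClosure with hS
  have hcl : IsClosed (S : Set (Sp 𝕜 Γ)) := Submodule.isClosed_topologicalClosure _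
  have hmem : ∀ i, vec ξ i ∈ S := fun i =>
    Submodule.le_topologicalClosure _ (Submodule.subset_span ⟨i, rfl⟩)
  -- the second factor
  have h1 : ∀ (γ : Γ) (u : L1 𝕜), ((0, sW γ u, 0) : Sp 𝕜 Γ) ∈ S := by
    intro γ u
    let T : L1 𝕜 →L[𝕜] Sp 𝕜 Γ := (ContinuousLinearMap.inr 𝕜 (Linf 𝕜) (W 𝕜 Γ × H 𝕜 Γ)).comp
      ((ContinuousLinearMap.inl 𝕜 (W 𝕜 Γ) (H 𝕜 Γ)).comp (sW γ))
    have hT : ∀ v, T v = (0, sW γ v, 0) := fun v => rfl
    rw [← hT]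
    refine lp_top (p := 1) ENNReal.one_ne_top (S.comap T.toLinearMap)
      (hcl.preimage T.continuous) ?_ u
    intro n a
    show T (lp.single 1 n a) ∈ S
    have h2 : (lp.single 1 n a : L1 𝕜) = (a * (2 : 𝕜) ^ n) • ((1 / 2 : 𝕜) ^ n • u1 𝕜 n) := by
      rw [smul_smul, mul_assoc, half_two, mul_one]
      unfold u1
      rw [← lp.single_smul, smul_eq_mul, mul_one]
    rw [h2, map_smul]
    apply S.smul_mem
    have h3 : T ((1 / 2 : 𝕜) ^ n • u1 𝕜 n) =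
        vec ξ (Sum.inl n) - vec ξ (Sum.inr (Sum.inl (γ, n))) := by
      rw [hT]
      show _ = ((un 𝕜 n, 0, 0) : Sp 𝕜 Γ) - (un 𝕜 n, - sW γ ((1 / 2 : 𝕜) ^ n • u1 𝕜 n), 0)
      ext1
      · simp
      · ext1
        · simp
        · simp
    rw [h3]
    exact S.sub_mem (hmem _) (hmem _)
  have h2 : ∀ w : W 𝕜 Γ, ((0, w, 0) : Sp 𝕜 Γ) ∈ S := by
    intro w
    let T : W 𝕜 Γ →L[𝕜] Sp 𝕜 Γ := (ContinuousLinearMap.inr 𝕜 (Linf 𝕜) (W 𝕜 Γ × H 𝕜 Γ)).comp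
      (ContinuousLinearMap.inl 𝕜 (W 𝕜 Γ) (H 𝕜 Γ))
    refine lp_top (p := 1) ENNReal.one_ne_top (S.comap T.toLinearMap)
      (hcl.preimage T.continuous) ?_ w
    intro γ u
    exact h1 γ u
  -- the vectors `(ξ γ, 0, uH γ)`
  have h3 : ∀ γ, ((ξ γ, 0, uH 𝕜 γ) : Sp 𝕜 Γ) ∈ S := by
    intro γ
    have h4 : ((ξ γ, 0, uH 𝕜 γ) : Sp 𝕜 Γ) =
        vec ξ (Sum.inr (Sum.inr γ)) + (0, sW γ (dil (ξ γ)), 0) := by
      show _ = ((ξ γ, - sW γ (dil (ξ γ)), uH 𝕜 γ) : Sp 𝕜 Γ) + (0, sW γ (dil (ξ γ)), 0)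
      ext1
      · simp
      · ext1
        · simp
        · simp
    rw [h4]
    exact S.add_mem (hmem _) (h2 _)
  -- averaging
  have h4 : ∀ z : Linf 𝕜, ((z, 0, 0) : Sp 𝕜 Γ) ∈ S := by
    intro z
    obtain ⟨k, hk, hkz⟩ := hξ z
    let c : ℕ → H 𝕜 Γ := fun N => ∑ γ ∈ (Finset.range (N + 1)).map ⟨k, hk⟩,
      lp.single 2 γ ((N + 1 : 𝕜)⁻¹)
    have hc : Tendsto c atTop (𝓝 0) := by
      rw [tendsto_zero_iff_norm_tendsto_zero]
      have h5 : ∀ N, ‖c N‖ ^ 2 = 1 / ((N : ℝ) + 1) := by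
        intro N
        have h6 := lp.norm_sum_single (E := fun _ : Γ => 𝕜) (p := 2) (by norm_num)
          (fun _ => (N + 1 : 𝕜)⁻¹) ((Finset.range (N + 1)).map ⟨k, hk⟩)
        have h7 : ‖((N : 𝕜) + 1)⁻¹‖ = ((N : ℝ) + 1)⁻¹ := by
          rw [norm_inv]
          congr 1
          have : ((N : 𝕜) + 1) = ((N + 1 : ℕ) : 𝕜) := by push_cast; ring
          rw [this, RCLike.norm_natCast]
          push_cast
          ring
        simp only [ENNReal.toReal_ofNat, Real.rpow_ofNat, Finset.sum_const, Finset.card_map,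
          Finset.card_range, h7] at h6
        rw [show c N = ∑ γ ∈ (Finset.range (N + 1)).map ⟨k, hk⟩,
          lp.single 2 γ ((N + 1 : 𝕜)⁻¹) from rfl, h6]
        rw [nsmul_eq_mul]
        push_cast
        field_simp
      have h8 : Tendsto (fun N : ℕ => 1 / ((N : ℝ) + 1)) atTop (𝓝 0) :=
        tendsto_one_div_add_atTop_nhds_zero_nat
      have h9 : Tendsto (fun N : ℕ => Real.sqrt (1 / ((N : ℝ) + 1))) atTop (𝓝 0) := by
        have := (Real.continuous_sqrt.tendsto 0).comp h8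
        rwa [Real.sqrt_zero] at this
      refine h9.congr (fun N => ?_)
      rw [← h5, Real.sqrt_sq (norm_nonneg _)]
    have hlim : Tendsto (fun N => ((z, 0, c N) : Sp 𝕜 Γ)) atTop (𝓝 (z, 0, 0)) :=
      tendsto_const_nhds.prodMk_nhds (tendsto_const_nhds.prodMk_nhds hc)
    refine hcl.mem_of_tendsto hlim (Eventually.of_forall fun N => ?_)
    have h10 : ((z, 0, c N) : Sp 𝕜 Γ) =
        ∑ n ∈ Finset.range (N + 1), (N + 1 : 𝕜)⁻¹ • ((ξ (k n), 0, uH 𝕜 (k n)) : Sp 𝕜 Γ) := by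
      have hN : (N + 1 : 𝕜) ≠ 0 := by exact_mod_cast Nat.succ_ne_zero N
      ext1
      · rw [Prod.fst_sum]
        simp only [Prod.smul_fst, hkz, Finset.sum_const, Finset.card_range]
        rw [← Nat.cast_smul_eq_nsmul 𝕜, smul_smul]
        push_cast
        rw [mul_inv_cancel₀ hN, one_smul]
      · rw [Prod.snd_sum]
        ext1
        · rw [Prod.fst_sum]
          simp
        · rw [Prod.snd_sum]
          simp only [Prod.smul_snd]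
          show c N = _
          simp only [c, Finset.sum_map, Function.Embedding.coeFn_mk]
          refine Finset.sum_congr rfl fun n _ => ?_
          unfold uH
          rw [← lp.single_smul, smul_eq_mul, mul_one]
    show ((z, 0, c N) : Sp 𝕜 Γ) ∈ S
    rw [h10]
    exact S.sum_mem fun n _ => S.smul_mem _ (h3 _)
  have h5 : ∀ c : H 𝕜 Γ, ((0, 0, c) : Sp 𝕜 Γ) ∈ S := by
    intro c
    let T : H 𝕜 Γ →L[𝕜] Sp 𝕜 Γ := (ContinuousLinearMap.inr 𝕜 (Linf 𝕜) (W 𝕜 Γ × H 𝕜 Γ)).comp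
      (ContinuousLinearMap.inr 𝕜 (W 𝕜 Γ) (H 𝕜 Γ))
    refine lp_top (p := 2) (by norm_num) (S.comap T.toLinearMap)
      (hcl.preimage T.continuous) ?_ c
    intro γ a
    show T (lp.single 2 γ a) ∈ S
    have h6 : (lp.single 2 γ a : H 𝕜 Γ) = a • uH 𝕜 γ := by
      unfold uH
      rw [← lp.single_smul, smul_eq_mul, mul_one]
    rw [h6, map_smul]
    apply S.smul_mem
    have h7 : T (uH 𝕜 γ) = ((ξ γ, 0, uH 𝕜 γ) : Sp 𝕜 Γ) - (ξ γ, 0, 0) := by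
      show ((0, 0, uH 𝕜 γ) : Sp 𝕜 Γ) = _
      ext1
      · simp
      · ext1
        · simp
        · simp
    rw [h7]
    exact S.sub_mem (h3 γ) (h4 _)
  rw [eq_top_iff]
  rintro ⟨z, w, c⟩ -
  have h6 : ((z, w, c) : Sp 𝕜 Γ) = (z, 0, 0) + ((0, w, 0) + (0, 0, c)) := by
    ext1
    · simp
    · ext1
      · simp
      · simp
  rw [h6]
  exact S.add_mem (h4 z) (S.add_mem (h2 w) (h5 c))

end construction

/-- **There is a Banach space (over `ℝ` and over `ℂ`) which has an extended M-basis and contains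
a closed subspace linearly homeomorphic to `ℓ^∞`.** -/
theorem result (𝕜 : Type) [RCLike 𝕜] :
    ∃ (E : Type) (_ : NormedAddCommGroup E) (_ : NormedSpace 𝕜 E) (_ : CompleteSpace E)
      (I : Type) (x : I → E) (G : Submodule 𝕜 E),
      IsExtendedMBasis 𝕜 x ∧ IsClosed (G : Set E) ∧
        Nonempty (G ≃L[𝕜] lp (fun _ : ℕ => 𝕜) ∞) := by
  classical
  let Γ : Type := Linf 𝕜 × ℕ
  let ξ : Γ → Linf 𝕜 := Prod.fst
  let J : Linf 𝕜 →ₗᵢ[𝕜] Sp 𝕜 Γ :=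
    { toLinearMap := LinearMap.inl 𝕜 (Linf 𝕜) (W 𝕜 Γ × H 𝕜 Γ)
      norm_map' := fun z => by
        show ‖((z, 0) : Linf 𝕜 × (W 𝕜 Γ × H 𝕜 Γ))‖ = ‖z‖
        rw [Prod.norm_def, norm_zero]
        exact max_eq_left (norm_nonneg _) }
  refine ⟨Sp 𝕜 Γ, inferInstance, inferInstance, inferInstance, Idx Γ, vec ξ,
    LinearMap.range J.toLinearMap, ⟨?_, fn ξ, biorth_fn ξ, total_fn ξ⟩, ?_, ?_⟩
  · refine span_vec ξ (fun z => ⟨fun n => (z, n), fun a b h => (Prod.ext_iff.1 h).2, fun n => rfl⟩)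
  · have h := J.isometry.isClosedEmbedding.isClosed_range
    exact h
  · exact ⟨(J.equivRange).symm.toContinuousLinearEquiv⟩

end Pool.Agent.Results.MP_810de6_an.LinftyInMBasisSpace
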